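import Pool.Agent.H270.SP.RecB
import Pool.Agent.H270.SP.HInt
import Pool.Agent.H270.SP.HLin
import Pool.Agent.H270.SP.HJay

/-!
# Measures of reciprocal polynomials whose sum with an antireciprocal one has few zeros outside

Let `F`, `H` be nonzero integer polynomials of degree at most `N` with `F(X) = X ^ N F(1 / X)` and
`H(X) = - X ^ N H(1 / X)`, where the coefficient of `X ^ N` in `F + H` is not `0`, and let `k` be the
number of the zeros of `F + H` outside the unit circle, with multiplicity. Then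
`M(F + H) ≤ (2 (2 (k + 2) (k + 3)) ^ k)³ max(M(F), M(H))` (1).

Let `κ` be a monotone function, given once and for all, and let `companionMeasures κ` be the set of the
measures `M(F)` of all `F`, of all degrees, for which there is such an `H` with `k ≤ κ(M(F))` and
`M(H) ≤ κ(M(F))`, which has no zero outside the unit circle in common with `F` (there is no such zero
if `M(H) = 1`; for instance `H = X ^ (N - m) - X ^ m`). This set has coprime companions of bounded
height (2), (3). The closure of the multiplicative monoid generated by it and by any other class with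
bounded companions consists of Mahler measures of integer polynomials in several variables; it has a
gap above `1`, and below every bound it has finite Cantor-Bendixson rank (4). The classes with constant
`κ` exhaust the set of the measures of the reciprocal polynomials (5).

Method of (1): on the unit circle `|F + H|² = |F|² + |H|²`. One of the points `t = 2, …, k + 2` is not
near a zero of `P = F + H`, and there `|P(t)|` is at most `2 |F(t)|` or `2 |H(t)|`. Harnack's inequality
for `log |P / F| ≥ 0` or `log |P / H| ≥ 0` outside of the unit circle, with the Poisson-Jensen formula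
for the zeros, compares the quotient of the measures with the quotient of the values at `t`.
-/

set_option autoImplicit false

namespace Pool.Agent.Results.MP_6d22ea_nt.AntireciprocalCompanions

open Polynomial

noncomputable section

/-- Value of an integer polynomial in `k` variables at the torus point
`(exp (2 π i t_1), …, exp (2 π i t_k))`. -/
def value {k : ℕ} (F : MvPolynomial (Fin k) ℤ) (t : Fin k → ℝ) : ℂ :=
  MvPolynomial.eval
    (fun j : Fin k => Complex.exp (2 * (Real.pi : ℂ) * Complex.I * ((t j : ℝ) : ℂ)))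
    (MvPolynomial.map (Int.castRingHom ℂ) F)

/-- The Mahler measure of an integer polynomial in `k` variables. -/
def mahler {k : ℕ} (F : MvPolynomial (Fin k) ℤ) : ℝ :=
  Real.exp (∫ t in Set.Icc (0 : Fin k → ℝ) 1, Real.log ‖value F t‖)

/-- The integral of `log max(|F|, |G|)` over the torus. -/
def pairHeight {k : ℕ} (F G : MvPolynomial (Fin k) ℤ) : ℝ :=
  ∫ t in Set.Icc (0 : Fin k → ℝ) 1, Real.log (max ‖value F t‖ ‖value G t‖)

/-- The set of the Mahler measures of the nonzero integer polynomials in any number of variables. -/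
def allMeasures : Set ℝ :=
  {x : ℝ | ∃ k : ℕ, 1 ≤ k ∧ ∃ F : MvPolynomial (Fin k) ℤ, F ≠ 0 ∧ x = mahler F}

/-- The Mahler measures of the nonzero polynomials `F` having a coprime companion `G ≠ 0` with
`∫ log max(|F|, |G|) ≤ K`. -/
def L (K : ℝ) : Set ℝ :=
  {x : ℝ | ∃ k : ℕ, 1 ≤ k ∧ ∃ F G : MvPolynomial (Fin k) ℤ, F ≠ 0 ∧ G ≠ 0 ∧ IsRelPrime F G ∧
    pairHeight F G ≤ K ∧ x = mahler F}

/-- For every `B` some `L K` contains all elements of `T` below `B`. -/
def BoundedCompanions (T : Set ℝ) : Prop := ∀ B : ℝ, ∃ K : ℝ, T ∩ Set.Iio B ⊆ L K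

/-- The value of an integer polynomial in one variable at a complex number. -/
def at1 (P : ℤ[X]) (z : ℂ) : ℂ := (P.map (Int.castRingHom ℂ)).eval z

/-- The Mahler measure of an integer polynomial in one variable (Mathlib). -/
def measure (P : ℤ[X]) : ℝ := (P.map (Int.castRingHom ℂ)).mahlerMeasure

/-- The constant `(2 (k + 2) (k + 3)) ^ k`. -/
def const (k : ℕ) : ℝ := (2 * ((k : ℝ) + 2) * ((k : ℝ) + 3)) ^ k

/-- The number of the complex zeros outside the closed unit disc, with multiplicity. -/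
def outside (P : ℤ[X]) : ℕ :=
  ((P.map (Int.castRingHom ℂ)).roots.filter fun z => 1 < ‖z‖).card

/-- `F` has degree at most `N`, and `X ^ N F(1 / X) = F(X)`. -/
def Reciprocal (N : ℕ) (F : ℤ[X]) : Prop := F.natDegree ≤ N ∧ F.reflect N = F

/-- `H` has degree at most `N`, and `X ^ N H(1 / X) = - H(X)`. -/
def Antireciprocal (N : ℕ) (H : ℤ[X]) : Prop := H.natDegree ≤ N ∧ H.reflect N = -H

/-- The measures of the reciprocal `F` for which some antireciprocal `H` satisfies: the coefficient of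
`X ^ N` in `F + H` is not `0`, `F + H` has at most `κ(M(F))` zeros outside the unit circle,
`M(H) ≤ κ(M(F))`, and `F`, `H` have no common zero outside the unit circle. -/
def companionMeasures (κ : ℝ → ℝ) : Set ℝ :=
  {x : ℝ | ∃ (N : ℕ) (F H : ℤ[X]), Reciprocal N F ∧ Antireciprocal N H ∧ F ≠ 0 ∧ H ≠ 0 ∧
    (F + H).coeff N ≠ 0 ∧ (outside (F + H) : ℝ) ≤ κ x ∧ measure H ≤ κ x ∧
    (∀ z : ℂ, 1 < ‖z‖ → at1 F z = 0 → at1 H z ≠ 0) ∧ x = measure F}

theorem t_J : Pool.Agent.H270.SP.S_J :=
  Pool.Agent.H270.SP.t_jay Pool.Agent.H270.SP.t_int Pool.Agent.H270.SP.t_lin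

theorem const_eq (k : ℕ) : const k = Pool.Agent.H270.SP.bd k ^ k := rfl

theorem const_pos (k : ℕ) : 0 < const k := by
  unfold const
  positivity

theorem exhaust (N : ℕ) (F : ℤ[X]) (hN : 1 ≤ N) (hF : Reciprocal N F) (hF0 : F ≠ 0) :
    ∃ B : ℝ, measure F ∈ companionMeasures fun _ => B := by
  obtain ⟨c, hc, hcF⟩ : ∃ c : ℤ, 1 ≤ c ∧ F.coeff N + c ≠ 0 := by
    by_cases h1 : F.coeff N + 1 = 0
    · exact ⟨2, by norm_num, by omega⟩
    · exact ⟨1, le_rfl, h1⟩
  set H : ℤ[X] := C c * (X ^ N - 1) with hH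
  have hcoef : H.coeff N = c := by
    rw [hH, coeff_C_mul, coeff_sub, coeff_X_pow, if_pos rfl, coeff_one, if_neg (by omega)]
    ring
  have hH0 : H ≠ 0 := by
    intro h0
    rw [h0, coeff_zero] at hcoef
    omega
  have hdeg : H.natDegree ≤ N := by
    refine (natDegree_C_mul_le _ _).trans ?_
    have h1 : (1 : ℤ[X]).natDegree ≤ N := by
      rw [natDegree_one]
      exact Nat.zero_le N
    exact (natDegree_sub_le_of_le (natDegree_X_pow_le N) h1).trans (max_self N).le
  have hrefl : H.reflect N = -H := by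
    rw [hH, reflect_C_mul, reflect_sub, reflect_monomial, revAt_le le_rfl, Nat.sub_self, pow_zero,
      ← C_1, reflect_C, C_1, one_mul]
    ring
  refine ⟨max (outside (F + H) : ℝ) (measure H), N, F, H, hF, ⟨hdeg, hrefl⟩, hF0, hH0, ?_,
    le_max_left _ _, le_max_right _ _, fun z hz _ h0 => ?_, rfl⟩
  · rw [coeff_add, hcoef]
    exact hcF
  · unfold at1 at h0
    rw [hH, Polynomial.map_mul, Polynomial.map_C, eval_mul, eval_C, Polynomial.map_sub,
      Polynomial.map_pow, Polynomial.map_X, Polynomial.map_one, eval_sub, eval_pow, eval_X,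
      eval_one] at h0
    rcases mul_eq_zero.mp h0 with h1 | h1
    · have h2 : (c : ℂ) = 0 := h1
      rw [Int.cast_eq_zero] at h2
      omega
    · have h2 : ‖z‖ ^ N = 1 := by
        rw [← norm_pow, sub_eq_zero.mp h1, norm_one]
      have h3 : 1 < ‖z‖ ^ N := one_lt_pow₀ hz (by omega)
      linarith

theorem result (κ : ℝ → ℝ) (hκ : Monotone κ) :
    (∀ (N : ℕ) (F H : ℤ[X]), Reciprocal N F → Antireciprocal N H → F ≠ 0 → H ≠ 0 →
      (F + H).coeff N ≠ 0 →
      measure (F + H) ≤ (2 * const (outside (F + H))) ^ 3 * max (measure F) (measure H)) ∧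
    (∀ x ∈ companionMeasures κ, x ∈ L (Real.log ((2 * const ⌊κ x⌋₊) ^ 3 * max x (κ x)))) ∧
    BoundedCompanions (companionMeasures κ) ∧
    (∀ T : Set ℝ, BoundedCompanions T → ∃ M : Submonoid ℝ,
      M = Submonoid.closure (T ∪ companionMeasures κ) ∧
      BoundedCompanions (M : Set ℝ) ∧ closure (M : Set ℝ) ⊆ allMeasures ∧
      (∃ δ : ℝ, 1 < δ ∧ ∀ x ∈ M, x = 1 ∨ δ ≤ x) ∧
      ∀ B : ℝ, ∃ s : ℕ, ∀ x ∈ derivedSet^[s] (M : Set ℝ), B ≤ x) ∧
    (∀ (N : ℕ) (F : ℤ[X]), 1 ≤ N → Reciprocal N F → F ≠ 0 →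
      ∃ B : ℝ, measure F ∈ companionMeasures fun _ => B) := by
  have hcon : ∀ {k m : ℕ} {x y : ℝ}, k ≤ m → 1 ≤ x → x ≤ y →
      (2 * const k) ^ 3 * x ≤ (2 * const m) ^ 3 * y := by
    intro k m x y hkm hx hxy
    have h1 : const k ≤ const m := by
      rw [const_eq, const_eq]
      exact Pool.Agent.H270.SP.bd_pow_mono hkm
    have h2 := const_pos k
    have h4 := const_pos m
    have h3 : (2 * const k) ^ 3 ≤ (2 * const m) ^ 3 :=
      pow_le_pow_left₀ (by positivity) (by linarith) 3
    exact mul_le_mul h3 hxy (by linarith) (by positivity)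
  have h11 : ∀ k : ℕ, ((1 + 1) * Pool.Agent.H270.SP.bd k ^ k) ^ 3 = (2 * const k) ^ 3 := by
    intro k
    rw [const_eq]
    norm_num
  have hF' : ∀ (N : ℕ) (F H : ℤ[X]), Reciprocal N F → Antireciprocal N H → ∀ z : ℂ, ‖z‖ = 1 →
      ‖(Pool.Agent.H261R2.CM.toC F).eval z‖ ≤ ‖(Pool.Agent.H261R2.CM.toC (F + H)).eval z‖ := by
    intro N F H hF hH z hz
    refine abs_le_of_sq_le_sq' ?_ (norm_nonneg _) |>.2
    rw [Pool.Agent.H270.SP.rec_circle N F H hF.1 hH.1 hF.2 hH.2 z hz]
    have := sq_nonneg (‖(Pool.Agent.H261R2.CM.toC H).eval z‖)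
    linarith
  have hH' : ∀ (N : ℕ) (F H : ℤ[X]), Reciprocal N F → Antireciprocal N H → ∀ z : ℂ, ‖z‖ = 1 →
      ‖(Pool.Agent.H261R2.CM.toC H).eval z‖ ≤ ‖(Pool.Agent.H261R2.CM.toC (F + H)).eval z‖ := by
    intro N F H hF hH z hz
    refine abs_le_of_sq_le_sq' ?_ (norm_nonneg _) |>.2
    rw [Pool.Agent.H270.SP.rec_circle N F H hF.1 hH.1 hF.2 hH.2 z hz]
    have := sq_nonneg (‖(Pool.Agent.H261R2.CM.toC F).eval z‖)
    linarith
  have hP : ∀ (N : ℕ) (F H : ℤ[X]), (F + H).coeff N ≠ 0 → F + H ≠ 0 := by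
    intro N F H h h0
    rw [h0, coeff_zero] at h
    exact h rfl
  have hbound : ∀ x ∈ companionMeasures κ, 1 ≤ x ∧
      x ∈ L (Real.log ((2 * const ⌊κ x⌋₊) ^ 3 * max x (κ x))) := by
    rintro x ⟨N, F, H, hF, hH, hF0, hH0, hlead, hk, hm, hz, hx⟩
    have hx1 : 1 ≤ x := by
      rw [hx]
      exact Pool.Agent.Y820.LB.one_le_m1 hF0
    refine ⟨hx1, ?_⟩
    have h1 := Pool.Agent.H270.SP.mem_rec Pool.Agent.H270.SP.t_int t_J (outside (F + H)) F H hF0
      hH0 (hP N F H hlead) (hF.1.trans (le_natDegree_of_ne_zero hlead))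
      (hH.1.trans (le_natDegree_of_ne_zero hlead)) (hF' N F H hF hH) (hH' N F H hF hH) le_rfl hz
    have h2 : Pool.Agent.H261R2.CM.m1 F = x := hx.symm
    rw [h2, h11] at h1
    have h3 : Pool.Agent.H261R2.CM.m1 H ≤ κ x := hm
    have h5 : 1 ≤ max x (Pool.Agent.H261R2.CM.m1 H) := le_max_of_le_left hx1
    have h6 := const_pos (outside (F + H))
    refine Pool.Agent.H261R2.CM.LL_mono (Real.log_le_log (by positivity) ?_) h1
    exact hcon (Nat.le_floor hk) h5 (max_le_max le_rfl h3)
  have hB : BoundedCompanions (companionMeasures κ) := by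
    rintro B
    refine ⟨Real.log ((2 * const ⌊κ B⌋₊) ^ 3 * max B (κ B)), fun x hx => ?_⟩
    obtain ⟨h1, h3⟩ := hbound x hx.1
    have h4 : x ≤ B := le_of_lt hx.2
    have h5 : 1 ≤ max x (κ x) := le_max_of_le_left h1
    have h6 := const_pos ⌊κ x⌋₊
    refine Pool.Agent.H261R2.CM.LL_mono (Real.log_le_log (by positivity) ?_) h3
    exact hcon (Nat.floor_mono (hκ h4)) h5 (max_le_max h4 (hκ h4))
  refine ⟨?_, fun x hx => (hbound x hx).2, hB, ?_, exhaust⟩
  · intro N F H hF hH hF0 hH0 hlead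
    rw [← h11]
    exact Pool.Agent.H270.SP.cmp_rec Pool.Agent.H270.SP.t_int t_J (outside (F + H)) F H hF0
      hH0 (hP N F H hlead) (hF.1.trans (le_natDegree_of_ne_zero hlead))
      (hH.1.trans (le_natDegree_of_ne_zero hlead)) (hF' N F H hF hH) (hH' N F H hF hH) le_rfl
  · intro T hT
    have h1 : Pool.Agent.TH845.KN.BC
        ((Submonoid.closure (T ∪ companionMeasures κ) : Submonoid ℝ) : Set ℝ) :=
      Pool.Agent.TH845.KN.BC_monoid (Pool.Agent.TH845.KN.BC.union hT hB)
    obtain ⟨h2, h3⟩ := Pool.Agent.W242.IM.closure_of_LL _ h1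
    exact ⟨_, rfl, h1, h2, Pool.Agent.TH845.KN.gap_BC h1, h3⟩

end

end Pool.Agent.Results.MP_6d22ea_nt.AntireciprocalCompanions
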