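import Pool.Agent.H723.LZM.Boyd

/-!
# Boyd's question for polynomials with compressible coefficient sequences

Words with integer letters are identified with integer polynomials in one variable (the word is the
sequence of the coefficients).  A program (`Program`, `Computes z f`: `f` is computed with `z`
instructions) starts with the zero polynomial; an instruction adds to an earlier polynomial a
monomial `c X ^ n`, or an integer multiple, written from any position on, of a word of any length
which is periodic, up to the sign of the successive periods, and whose period is a factor (a block of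
consecutive coefficients) of an earlier polynomial, or of a factor of an earlier polynomial read
backwards.  `LZ z f` says that the coefficient sequence has a Lempel-Ziv parse with `z` phrases
(single letters, copies of earlier blocks up to sign, which may overlap their sources, and reversed
copies up to sign).  The degree and the coefficients are not bounded in terms of `z`.

`Comp z` is the set of the Mahler measures of the nonzero polynomials computed with `z`
instructions and `boydSet` the set of all Mahler measures of nonzero integer polynomials in any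
number of variables.

1. A Lempel-Ziv parse with `z` phrases is a program with `z` instructions.
2. The limits of elements of `Comp z` are Mahler measures: `closure (Comp z) ⊆ boydSet`.  So a
   sequence of polynomials in one variable whose measures converge to a number which is not a Mahler
   measure leaves every `Comp z` (part 3).
4. The closure of `Comp z` has locally finite Cantor-Bendixson rank: the least element of its `m`-th
   derived set tends to infinity with `m`.
5. Explicitly, the part of `closure (Comp z)` below `B` lies in the closed set `L (8^z log 4 + log B)`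
   of the measures of polynomials `F` with a coprime companion `G` with
   `∫ log max(|F|, |G|) ≤ 8^z log 4 + log B`; and the measures of the polynomials computed with `z`
   instructions whose coefficients are at most `H` lie in `L (z log 16 + log H)`.

Proof: some product `D` of at most `z` polynomials `1 ± X ^ d` makes `D f` have at most `8 ^ z` terms
(`Pool/Agent/H723/LZM/Prog.lean`); the coefficients of `D f` are then bounded in terms of
`M(D f) = M(f)` and `z`, and the closed exhaustion of the library applies.
-/

set_option autoImplicit false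

open Polynomial Filter Topology

namespace Pool.Agent.Results.MP_6d22ea_nt.CopyPastePrograms

open Pool.Agent.H723.LZM (LZ Computes)

noncomputable section

/-- Value of an integer polynomial in `k` variables at the torus point
`(exp (2 π i t_1), …, exp (2 π i t_k))`. -/
def value {k : ℕ} (F : MvPolynomial (Fin k) ℤ) (t : Fin k → ℝ) : ℂ :=
  MvPolynomial.eval (fun j : Fin k => Complex.exp (2 * (Real.pi : ℂ) * Complex.I * ((t j : ℝ) : ℂ)))
    (MvPolynomial.map (Int.castRingHom ℂ) F)

/-- The Mahler measure of an integer polynomial in `k` variables. -/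
def mahler {k : ℕ} (F : MvPolynomial (Fin k) ℤ) : ℝ :=
  Real.exp (∫ t in Set.Icc (0 : Fin k → ℝ) 1, Real.log ‖value F t‖)

/-- The set of the Mahler measures of all nonzero integer polynomials. -/
def boydSet : Set ℝ := {x : ℝ | ∃ k : ℕ, 1 ≤ k ∧ ∃ F : MvPolynomial (Fin k) ℤ, F ≠ 0 ∧ x = mahler F}

/-- The integral of `log max(|F|, |G|)` over the torus. -/
def pairHeight {k : ℕ} (F G : MvPolynomial (Fin k) ℤ) : ℝ :=
  ∫ t in Set.Icc (0 : Fin k → ℝ) 1, Real.log (max ‖value F t‖ ‖value G t‖)

/-- The Mahler measures of the nonzero polynomials `F` having a coprime companion `G ≠ 0` with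
`∫ log max(|F|, |G|) ≤ K`. -/
def L (K : ℝ) : Set ℝ :=
  {x : ℝ | ∃ k : ℕ, 1 ≤ k ∧ ∃ F G : MvPolynomial (Fin k) ℤ, F ≠ 0 ∧ G ≠ 0 ∧ IsRelPrime F G ∧
    pairHeight F G ≤ K ∧ x = mahler F}

/-- The Mahler measures of the nonzero polynomials in one variable computed with `z`
instructions. -/
def Comp (z : ℕ) : Set ℝ :=
  {x : ℝ | ∃ f : ℤ[X], f ≠ 0 ∧ Computes z f ∧ x = (f.map (Int.castRingHom ℂ)).mahlerMeasure}

theorem result :
    (∀ (z : ℕ) (f : ℤ[X]), LZ z f → Computes z f) ∧
    (∀ z : ℕ, closure (Comp z) ⊆ boydSet) ∧
    (∀ (f : ℕ → ℤ[X]) (x : ℝ), (∀ n, f n ≠ 0) →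
      Tendsto (fun n => ((f n).map (Int.castRingHom ℂ)).mahlerMeasure) atTop (𝓝 x) →
      x ∉ boydSet → ∀ z : ℕ, ∀ᶠ n in atTop, ¬ Computes z (f n)) ∧
    (∀ (z : ℕ) (B : ℝ), ∃ m : ℕ, ∀ x ∈ derivedSet^[m] (closure (Comp z)), B ≤ x) ∧
    (∀ (z : ℕ) (B : ℝ), ∀ x ∈ closure (Comp z), x < B → x ∈ L (8 ^ z * Real.log 4 + Real.log B)) ∧
    (∀ (z H : ℕ) (f : ℤ[X]), f ≠ 0 → Computes z f → 1 ≤ H → (∀ t, |f.coeff t| ≤ H) →
      (f.map (Int.castRingHom ℂ)).mahlerMeasure ∈ L (z * Real.log 16 + Real.log H)) := by
  have hLL : ∀ K, L K = Pool.Agent.H261R2.CM.LL K := fun K => rfl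
  have hCM : ∀ z, Comp z = Pool.Agent.H723.LZM.CM z := fun z => rfl
  have hB : boydSet = ⋃ K : ℝ, Pool.Agent.H261R2.CM.LL K := Pool.Agent.H261R2.CM.iUnion_LL.symm
  have h2 : ∀ z : ℕ, closure (Comp z) ⊆ boydSet := by
    intro z
    rw [hB, hCM]
    exact Pool.Agent.H723.LZM.closure_CM z
  have h5 : ∀ (z : ℕ) (B : ℝ), ∀ x ∈ closure (Comp z), x < B →
      x ∈ L (8 ^ z * Real.log 4 + Real.log B) := by
    intro z B x hx hxB
    exact Pool.Agent.H723.LZM.closure_CM_subset z B hx hxB
  refine ⟨fun z f h => h.computes, h2, ?_, ?_, h5, ?_⟩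
  · intro f x hf hlim hx z
    by_contra hcon
    rw [not_eventually] at hcon
    apply hx
    apply h2 z
    rw [mem_closure_iff_frequently]
    have h3 : ∃ᶠ n in atTop, ((f n).map (Int.castRingHom ℂ)).mahlerMeasure ∈ Comp z :=
      hcon.mono fun n hn => ⟨f n, hf n, not_not.mp hn, rfl⟩
    exact hlim.frequently h3
  · intro z B
    obtain ⟨m, hm⟩ := Pool.Agent.H887R3.LW.finite_rank (8 ^ z * Real.log 4 + Real.log B)
    refine ⟨m, fun x hx => ?_⟩
    by_contra hlt
    push Not at hlt
    have h1 := Pool.Agent.H887R3.LW.iterate_derived_local (closure (Comp z)) B m ⟨hx, hlt⟩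
    have h3 : closure (Comp z) ∩ Set.Iio B ⊆
        Pool.Agent.H261R2.CM.LL (8 ^ z * Real.log 4 + Real.log B) :=
      fun y hy => h5 z B y hy.1 hy.2
    have h4 := Pool.Agent.H887R3.LW.iterate_derived_mono h3 m h1
    rw [hm] at h4
    exact h4
  · intro z H f hf0 hf hH hc
    exact Pool.Agent.H723.LZM.mem_LL_of_coeff hf hf0 hH hc

end

end Pool.Agent.Results.MP_6d22ea_nt.CopyPastePrograms
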