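import Pool.Agent.H270.SP.KGen
import Pool.Agent.H270.SP.HInt
import Pool.Agent.H270.SP.HLin
import Pool.Agent.H270.SP.HJay
import Pool.Agent.H270.SP.CDim
import Pool.Agent.H270.SP.CBack
import Pool.Agent.H270.SP.CFix
import Pool.Agent.H270.SP.CCnt

/-!
# Measures of Alexander polynomials of Seifert forms with few negative squares

Let `U`, `V` be integral matrices of any size with `d_i U_ij = d_j V_ji` for positive real numbers
`d_i` (if all `d_i` are `1` then `V` is the transpose of the arbitrary integral matrix `U`), such that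
the quadratic form `∑ d_i U_ij x_i x_j` has at most `k` negative squares. Put `F = det (X U + V)`. It
is self-reciprocal, with at most `k` zeros outside the unit circle, the coefficient of `X ^ n` is
`det U`; up to the substitution `X ↦ - X` it is the Alexander polynomial of the Seifert matrix `U`, for
instance of a link whose signature differs by at most `2 k` from the largest possible value (the
Coxeter polynomials are the case that `U` is triangular with diagonal entries `1`). Let `G` be the
polynomial of the matrices `U_i`, `V_i` without the row and the column `i`. Then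
`|F + c (z - 1) G|² = |F|² + c² |z - 1|² |G|²` on the unit circle. If `F`, `G` are not `0` and
`det U + c det U_i ≠ 0` for the integer `c ≥ 1` then
`M(F + c (X - 1) G) ≤ ((1 + c) (2 (k + 2) (k + 3)) ^ k)³ max(M(F), M(G))` (1). If the form of `U` is
positive semidefinite and `det U ≠ 0` then `F` has no zero outside of the unit circle and
`M(F) = |det U|` (2).

Consequences. Let `κ` be a monotone function, given once and for all, and let `seifertMeasures κ` be
the set of all `M(F)`, all sizes and all matrices with at most `κ(M(F))` negative squares, such that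
for some `i` the polynomials `F`, `G` are not `0` and have no common zero outside the unit circle, one
of the determinants of `U`, `U_i` is not `0` and `M(G) ≤ κ(M(F))`. It has coprime companions of
bounded height (4), (5). It contains the measures of all forms which have one row and one column more
than a positive semidefinite form with determinant `0 < |det U_i| ≤ κ(M)` (3). The closure of the
multiplicative monoid generated by this set and by any other class with bounded companions consists
of Mahler measures of integer polynomials in several variables; it has a gap above `1`, and below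
every bound it has finite Cantor-Bendixson rank (6).

Method of (1): `P = F + c (X - 1) G` has at most `k` zeros outside the unit circle. One of the points
`t = 2, …, k + 2` is not near these zeros, there `|P(t)|` is at most `(1 + c) |F(t)|` or
`(1 + c) |(t - 1) G(t)|`, and Harnack's inequality for `log |P / F| ≥ 0` (with the Poisson-Jensen
formula for the zeros) compares the quotient of the measures with the quotient of the values at `t`.
-/

set_option autoImplicit false

namespace Pool.Agent.Results.MP_6d22ea_nt.FewNegativeSquares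

open Polynomial

noncomputable section

/-- Value of an integer polynomial in `k` variables at the torus point
`(exp (2 π i t_1), …, exp (2 π i t_k))`. -/
def value {k : ℕ} (F : MvPolynomial (Fin k) ℤ) (t : Fin k → ℝ) : ℂ :=
  MvPolynomial.eval
    (fun j : Fin k => Complex.exp (2 * (Real.pi : ℂ) * Complex.I * ((t j : ℝ) : ℂ)))
    (MvPolynomial.map (Int.castRingHom ℂ) F)

/-- The Mahler measure of an integer polynomial in `k` variables. -/
def mahler {k : ℕ} (F : MvPolynomial (Fin k) ℤ) : ℝ :=
  Real.exp (∫ t in Set.Icc (0 : Fin k → ℝ) 1, Real.log ‖value F t‖)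

/-- The integral of `log max(|F|, |G|)` over the torus. -/
def pairHeight {k : ℕ} (F G : MvPolynomial (Fin k) ℤ) : ℝ :=
  ∫ t in Set.Icc (0 : Fin k → ℝ) 1, Real.log (max ‖value F t‖ ‖value G t‖)

/-- The set of the Mahler measures of the nonzero integer polynomials in any number of variables. -/
def allMeasures : Set ℝ :=
  {x : ℝ | ∃ k : ℕ, 1 ≤ k ∧ ∃ F : MvPolynomial (Fin k) ℤ, F ≠ 0 ∧ x = mahler F}

/-- The Mahler measures of the nonzero polynomials `F` having a coprime companion `G ≠ 0` with
`∫ log max(|F|, |G|) ≤ K`. -/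
def L (K : ℝ) : Set ℝ :=
  {x : ℝ | ∃ k : ℕ, 1 ≤ k ∧ ∃ F G : MvPolynomial (Fin k) ℤ, F ≠ 0 ∧ G ≠ 0 ∧ IsRelPrime F G ∧
    pairHeight F G ≤ K ∧ x = mahler F}

/-- For every `B` some `L K` contains all elements of `T` below `B`. -/
def BoundedCompanions (T : Set ℝ) : Prop := ∀ B : ℝ, ∃ K : ℝ, T ∩ Set.Iio B ⊆ L K

/-- The value of an integer polynomial in one variable at a complex number. -/
def at1 (P : ℤ[X]) (z : ℂ) : ℂ := (P.map (Int.castRingHom ℂ)).eval z

/-- The Mahler measure of an integer polynomial in one variable (Mathlib). -/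
def measure (P : ℤ[X]) : ℝ := (P.map (Int.castRingHom ℂ)).mahlerMeasure

/-- `d_i > 0` and `d_i U_ij = d_j V_ji`. -/
structure IsPair {n : ℕ} (U V : Matrix (Fin n) (Fin n) ℤ) (d : Fin n → ℝ) : Prop where
  pos : ∀ i, 0 < d i
  symm : ∀ i j, d i * U i j = d j * V j i

/-- The quadratic form `∑ d_i U_ij x_i x_j`. -/
def form {n : ℕ} (U : Matrix (Fin n) (Fin n) ℤ) (d x : Fin n → ℝ) : ℝ :=
  ∑ i, ∑ j, d i * U i j * x i * x j

/-- The quadratic form has at most `k` negative squares: it becomes positive semidefinite when the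
squares of `k` linear forms are added. -/
def FewSquares {n : ℕ} (k : ℕ) (U : Matrix (Fin n) (Fin n) ℤ) (d : Fin n → ℝ) : Prop :=
  ∃ v : Fin k → Fin n → ℝ, ∀ x : Fin n → ℝ, 0 ≤ form U d x + ∑ l, (∑ i, v l i * x i) ^ 2

/-- The constant `(2 (k + 2) (k + 3)) ^ k`. -/
def const (k : ℕ) : ℝ := (2 * ((k : ℝ) + 2) * ((k : ℝ) + 3)) ^ k

/-- The polynomial `det (X U + V)`. -/
def alexander {n : ℕ} (U V : Matrix (Fin n) (Fin n) ℤ) : ℤ[X] :=
  ((X : ℤ[X]) • U.map C + V.map C).det

/-- The matrix without the row and the column `i`. -/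
def delete {n : ℕ} (A : Matrix (Fin (n + 1)) (Fin (n + 1)) ℤ) (i : Fin (n + 1)) :
    Matrix (Fin n) (Fin n) ℤ := A.submatrix i.succAbove i.succAbove

/-- The measures of the pairs with at most `κ(M(F))` negative squares for which some minor satisfies:
`F` and `G` are not `0`, `det U ≠ 0` or `det U_i ≠ 0`, `M(G) ≤ κ(M(F))`, and `F`, `G` have no common
zero outside the unit circle. -/
def seifertMeasures (κ : ℝ → ℝ) : Set ℝ :=
  {x : ℝ | ∃ (n k : ℕ) (U V : Matrix (Fin (n + 1)) (Fin (n + 1)) ℤ) (d : Fin (n + 1) → ℝ)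
    (i : Fin (n + 1)), (k : ℝ) ≤ κ x ∧ IsPair U V d ∧ FewSquares k U d ∧ alexander U V ≠ 0 ∧
    alexander (delete U i) (delete V i) ≠ 0 ∧ (U.det ≠ 0 ∨ (delete U i).det ≠ 0) ∧
    measure (alexander (delete U i) (delete V i)) ≤ κ x ∧
    (∀ z : ℂ, 1 < ‖z‖ → at1 (alexander U V) z = 0 →
      at1 (alexander (delete U i) (delete V i)) z ≠ 0) ∧
    x = measure (alexander U V)}

/-- The measures of the pairs `U`, `V` with `F ≠ 0` for which some minor `delete U i` has a positive
semidefinite form and a determinant with `0 < |det U_i| ≤ κ(M(F))`. -/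
def bandMeasures (κ : ℝ → ℝ) : Set ℝ :=
  {x : ℝ | ∃ (n : ℕ) (U V : Matrix (Fin (n + 1)) (Fin (n + 1)) ℤ) (d : Fin (n + 1) → ℝ)
    (i : Fin (n + 1)), IsPair U V d ∧
    (∀ y : Fin n → ℝ, 0 ≤ form (delete U i) (fun a => d (i.succAbove a)) y) ∧
    alexander U V ≠ 0 ∧ (delete U i).det ≠ 0 ∧ |((delete U i).det : ℝ)| ≤ κ x ∧
    x = measure (alexander U V)}

theorem t_J : Pool.Agent.H270.SP.S_J :=
  Pool.Agent.H270.SP.t_jay Pool.Agent.H270.SP.t_int Pool.Agent.H270.SP.t_lin

theorem t_C : Pool.Agent.H270.SP.S_cnt :=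
  Pool.Agent.H270.SP.t_cnt Pool.Agent.H270.SP.t_dim Pool.Agent.H270.SP.t_back
    Pool.Agent.H270.SP.t_fix

theorem alexander_eq {n : ℕ} (U V : Matrix (Fin n) (Fin n) ℤ) :
    alexander U V = Pool.Agent.H270.SP.alex U V := by
  rw [Pool.Agent.H270.SP.alex_eq]
  rfl

theorem sei {n k : ℕ} {U V : Matrix (Fin n) (Fin n) ℤ} {d : Fin n → ℝ} (h : IsPair U V d)
    (hl : FewSquares k U d) : Pool.Agent.H270.SP.SeiK k U V d := ⟨h.pos, h.symm, hl⟩

theorem const_eq (k : ℕ) : const k = Pool.Agent.H270.SP.bd k ^ k := rfl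

theorem const_pos (k : ℕ) : 0 < const k := by
  unfold const
  positivity

theorem form_split {n : ℕ} (U : Matrix (Fin (n + 1)) (Fin (n + 1)) ℤ) (d x : Fin (n + 1) → ℝ)
    (i : Fin (n + 1)) : form U d x = d i * U i i * x i ^ 2 +
      x i * (∑ a, (d i * U i (i.succAbove a) + d (i.succAbove a) * U (i.succAbove a) i) *
        x (i.succAbove a)) +
      form (delete U i) (fun a => d (i.succAbove a)) (fun a => x (i.succAbove a)) := by
  unfold form delete
  rw [Fin.sum_univ_succAbove _ i, Fin.sum_univ_succAbove _ i]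
  have h1 : ∑ a, ∑ j, d (i.succAbove a) * (U (i.succAbove a) j : ℝ) * x (i.succAbove a) * x j =
      ∑ a, (d (i.succAbove a) * (U (i.succAbove a) i : ℝ) * x (i.succAbove a) * x i +
        ∑ b, d (i.succAbove a) * (U (i.succAbove a) (i.succAbove b) : ℝ) *
          x (i.succAbove a) * x (i.succAbove b)) :=
    Finset.sum_congr rfl fun a _ => Fin.sum_univ_succAbove _ i
  rw [h1, Finset.sum_add_distrib]
  have h2 : x i * (∑ a, (d i * U i (i.succAbove a) + d (i.succAbove a) * U (i.succAbove a) i) *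
        x (i.succAbove a)) =
      ∑ a, d i * (U i (i.succAbove a) : ℝ) * x i * x (i.succAbove a) +
        ∑ a, d (i.succAbove a) * (U (i.succAbove a) i : ℝ) * x (i.succAbove a) * x i := by
    rw [Finset.mul_sum, ← Finset.sum_add_distrib]
    refine Finset.sum_congr rfl fun a _ => ?_
    ring
  rw [h2]
  simp only [Matrix.submatrix_apply]
  ring

/-- one more row and column give at most one negative square -/
theorem almost {n : ℕ} (U : Matrix (Fin (n + 1)) (Fin (n + 1)) ℤ) (d : Fin (n + 1) → ℝ)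
    (i : Fin (n + 1))
    (h : ∀ y : Fin n → ℝ, 0 ≤ form (delete U i) (fun a => d (i.succAbove a)) y) :
    FewSquares 1 U d := by
  obtain ⟨b, hb1, hb2⟩ : ∃ b : ℝ, 0 < b ∧ 0 ≤ d i * U i i + b ^ 2 := by
    refine ⟨1 + |d i * U i i|, by positivity, ?_⟩
    nlinarith [neg_abs_le (d i * (U i i : ℝ)), abs_nonneg (d i * (U i i : ℝ))]
  refine ⟨fun _ => i.insertNth b fun a =>
    -((d i * U i (i.succAbove a) + d (i.succAbove a) * U (i.succAbove a) i) / (2 * b)),
    fun x => ?_⟩
  rw [Fin.sum_univ_one, form_split U d x i, Fin.sum_univ_succAbove _ i]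
  simp only [Fin.insertNth_apply_same, Fin.insertNth_apply_succAbove]
  set S := ∑ a, (d i * (U i (i.succAbove a) : ℝ) + d (i.succAbove a) * U (i.succAbove a) i) *
    x (i.succAbove a) with hS
  have h1 : ∑ a, -((d i * (U i (i.succAbove a) : ℝ) +
      d (i.succAbove a) * U (i.succAbove a) i) / (2 * b)) * x (i.succAbove a) = -(S / (2 * b)) := by
    rw [hS, Finset.sum_div, ← Finset.sum_neg_distrib]
    refine Finset.sum_congr rfl fun a _ => ?_
    ring
  rw [h1]
  have h2 := h fun a => x (i.succAbove a)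
  have h3 : d i * U i i * x i ^ 2 + x i * S +
      form (delete U i) (fun a => d (i.succAbove a)) (fun a => x (i.succAbove a)) +
      (b * x i + -(S / (2 * b))) ^ 2 = (d i * U i i + b ^ 2) * x i ^ 2 +
      form (delete U i) (fun a => d (i.succAbove a)) (fun a => x (i.succAbove a)) +
      (S / (2 * b)) ^ 2 := by
    field_simp
    ring
  rw [h3]
  positivity

theorem result (κ : ℝ → ℝ) (hκ : Monotone κ) :
    (∀ (n k : ℕ) (U V : Matrix (Fin (n + 1)) (Fin (n + 1)) ℤ) (d : Fin (n + 1) → ℝ)
      (i : Fin (n + 1)) (c : ℤ), IsPair U V d →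
      (∀ z : ℂ, ‖z‖ = 1 →
        ‖at1 (alexander U V) z + c * ((z - 1) * at1 (alexander (delete U i) (delete V i)) z)‖ ^ 2 =
          ‖at1 (alexander U V) z‖ ^ 2 +
            (c : ℝ) ^ 2 * ‖(z - 1) * at1 (alexander (delete U i) (delete V i)) z‖ ^ 2) ∧
      (FewSquares k U d → alexander U V ≠ 0 → alexander (delete U i) (delete V i) ≠ 0 →
        1 ≤ c → U.det + c * (delete U i).det ≠ 0 →
        measure (alexander U V + C c * ((X - 1) * alexander (delete U i) (delete V i))) ≤
          ((1 + (c : ℝ)) * const k) ^ 3 *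
            max (measure (alexander U V)) (measure (alexander (delete U i) (delete V i))))) ∧
    (∀ (n : ℕ) (U V : Matrix (Fin n) (Fin n) ℤ) (d : Fin n → ℝ), IsPair U V d →
      (∀ x : Fin n → ℝ, 0 ≤ form U d x) → U.det ≠ 0 →
      (∀ z : ℂ, 1 < ‖z‖ → at1 (alexander U V) z ≠ 0) ∧
      measure (alexander U V) = |(U.det : ℝ)|) ∧
    bandMeasures κ ⊆ seifertMeasures κ ∧
    (∀ x ∈ seifertMeasures κ, x ∈ L (Real.log ((3 * const ⌊κ x⌋₊) ^ 3 * max x (κ x)))) ∧
    BoundedCompanions (seifertMeasures κ) ∧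
    ∀ T : Set ℝ, BoundedCompanions T → ∃ M : Submonoid ℝ,
      M = Submonoid.closure (T ∪ seifertMeasures κ) ∧
      BoundedCompanions (M : Set ℝ) ∧ closure (M : Set ℝ) ⊆ allMeasures ∧
      (∃ δ : ℝ, 1 < δ ∧ ∀ x ∈ M, x = 1 ∨ δ ≤ x) ∧
      ∀ B : ℝ, ∃ s : ℕ, ∀ x ∈ derivedSet^[s] (M : Set ℝ), B ≤ x := by
  have hsemi : ∀ (n : ℕ) (U V : Matrix (Fin n) (Fin n) ℤ) (d : Fin n → ℝ), IsPair U V d →
      (∀ x : Fin n → ℝ, 0 ≤ form U d x) → U.det ≠ 0 →
      (∀ z : ℂ, 1 < ‖z‖ → at1 (alexander U V) z ≠ 0) ∧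
      measure (alexander U V) = |(U.det : ℝ)| := by
    intro n U V d h hf hd
    rw [alexander_eq]
    exact ⟨Pool.Agent.H270.SP.semidef h.pos h.symm hf hd,
      Pool.Agent.H270.SP.semidef_m1 h.pos h.symm hf hd⟩
  have hcon : ∀ {k m : ℕ} {x y : ℝ}, k ≤ m → 1 ≤ x → x ≤ y →
      (3 * const k) ^ 3 * x ≤ (3 * const m) ^ 3 * y := by
    intro k m x y hkm hx hxy
    have h1 : const k ≤ const m := by
      rw [const_eq, const_eq]
      exact Pool.Agent.H270.SP.bd_pow_mono hkm
    have h2 := const_pos k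
    have h4 := const_pos m
    have h3 : (3 * const k) ^ 3 ≤ (3 * const m) ^ 3 :=
      pow_le_pow_left₀ (by positivity) (by linarith) 3
    exact mul_le_mul h3 hxy (by linarith) (by positivity)
  have hbound : ∀ x ∈ seifertMeasures κ, 1 ≤ x ∧
      x ∈ L (Real.log ((3 * const ⌊κ x⌋₊) ^ 3 * max x (κ x))) := by
    rintro x ⟨n, k, U, V, d, i, hkx, h, hl, hF, hG, hdet, hk, hz, hx⟩
    rw [alexander_eq] at hF hG hk hx
    have hF1 : 1 ≤ Pool.Agent.H261R2.CM.m1 (Pool.Agent.H270.SP.alex U V) :=
      Pool.Agent.Y820.LB.one_le_m1 hF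
    have hx1 : 1 ≤ x := by
      rw [hx]
      exact hF1
    refine ⟨hx1, ?_⟩
    have h1 := (sei h hl).mem t_C Pool.Agent.H270.SP.t_int t_J i hF hG hdet fun z h2 h3 => by
      have h4 := hz z h2
      rw [alexander_eq, alexander_eq] at h4
      exact h4 h3
    have h2 : Pool.Agent.H261R2.CM.m1 (Pool.Agent.H270.SP.alex U V) = x := hx.symm
    rw [h2, ← const_eq] at h1
    have h3 : Pool.Agent.H261R2.CM.m1 (Pool.Agent.H270.SP.alex
      (Pool.Agent.H270.SP.del U i) (Pool.Agent.H270.SP.del V i)) ≤ κ x := hk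
    have h5 : 1 ≤ max x (Pool.Agent.H261R2.CM.m1 (Pool.Agent.H270.SP.alex
        (Pool.Agent.H270.SP.del U i) (Pool.Agent.H270.SP.del V i))) := le_max_of_le_left hx1
    have h6 := const_pos k
    refine Pool.Agent.H261R2.CM.LL_mono (Real.log_le_log (by positivity) ?_) h1
    exact hcon (Nat.le_floor hkx) h5 (max_le_max le_rfl h3)
  have hB : BoundedCompanions (seifertMeasures κ) := by
    rintro B
    refine ⟨Real.log ((3 * const ⌊κ B⌋₊) ^ 3 * max B (κ B)), fun x hx => ?_⟩
    obtain ⟨h1, h3⟩ := hbound x hx.1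
    have h4 : x ≤ B := le_of_lt hx.2
    have h5 : 1 ≤ max x (κ x) := le_max_of_le_left h1
    have h6 := const_pos ⌊κ x⌋₊
    refine Pool.Agent.H261R2.CM.LL_mono (Real.log_le_log (by positivity) ?_) h3
    exact hcon (Nat.floor_mono (hκ h4)) h5 (max_le_max h4 (hκ h4))
  refine ⟨?_, hsemi, ?_, fun x hx => (hbound x hx).2, hB, ?_⟩
  · intro n k U V d i c h
    refine ⟨fun z hz => ?_, fun hl hF hG hc hdet => ?_⟩
    · have h1 := Pool.Agent.H270.SP.circle_c h.pos h.symm i c z hz
      have h2 : (Pool.Agent.H261R2.CM.toC (C c * ((X - 1) * Pool.Agent.H270.SP.alex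
          (Pool.Agent.H270.SP.del U i) (Pool.Agent.H270.SP.del V i)))).eval z =
          c * ((z - 1) * at1 (alexander (delete U i) (delete V i)) z) := by
        rw [Pool.Agent.Y820.LB.toC_mul, eval_mul, Pool.Agent.H270.SP.eval_X1, alexander_eq]
        congr 1
        unfold Pool.Agent.H261R2.CM.toC
        simp
      rw [Pool.Agent.H270.SP.eval_add', h2, Pool.Agent.H270.SP.eval_X1] at h1
      rw [alexander_eq U V]
      refine h1.trans ?_
      rw [alexander_eq]
      rfl
    · rw [alexander_eq] at hF hG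
      rw [alexander_eq, alexander_eq]
      exact (sei h hl).aux t_C Pool.Agent.H270.SP.t_int t_J i c hc hF hG hdet
  · rintro x ⟨n, U, V, d, i, h, hf, hF, hdet, hk, hx⟩
    have h1 := hsemi n (delete U i) (delete V i) (fun a => d (i.succAbove a))
      ⟨fun _ => h.pos _, fun _ _ => h.symm _ _⟩ hf hdet
    have h2 := Pool.Agent.H270.SP.one_le_abs hdet
    refine ⟨n, 1, U, V, d, i, ?_, h, almost U d i hf, hF, ?_, Or.inr hdet, by rw [h1.2]; exact hk,
      fun z hz _ => h1.1 z hz, hx⟩
    · rw [Nat.cast_one]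
      exact h2.trans hk
    · rw [alexander_eq]
      exact Pool.Agent.H270.SP.alex_ne _ _ hdet
  · intro T hT
    have h1 : Pool.Agent.TH845.KN.BC
        ((Submonoid.closure (T ∪ seifertMeasures κ) : Submonoid ℝ) : Set ℝ) :=
      Pool.Agent.TH845.KN.BC_monoid (Pool.Agent.TH845.KN.BC.union hT hB)
    obtain ⟨h2, h3⟩ := Pool.Agent.W242.IM.closure_of_LL _ h1
    exact ⟨_, rfl, h1, h2, Pool.Agent.TH845.KN.gap_BC h1, h3⟩

end

end Pool.Agent.Results.MP_6d22ea_nt.FewNegativeSquares
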